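import Pool.Agent.Lib.MP_85df58_lc.Universal

/-!
There is a set `A` of minimal Turing degree such that the complexity of its initial segments
`A ↾ n` exceeds `2 K(n) - C` for every `n`, for every universal self-delimiting machine (with a
constant `C` that depends on the machine).

The set is built by forcing with bushy trees. The block number `j` of `A` has length
`2 ^ ((j + 2) ^ 2)`, which exceeds every multiple of the total length of the preceding blocks for
large `j`. A condition is an enumerable tree of strings of blocks, bushy except for leaves in an
enumerable set of forbidden strings, where this set is small. The initial set of forbidden strings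
contains the strings of `j` blocks with a description shorter than `2 ^ ((j + 1) ^ 2 - 2)`.
-/

namespace Pool.Agent.Results.MP_85df58_lc.MinimalComplex

open Pool.Agent.Lib.MP_85df58_lc

/-- There is a set `A` of minimal Turing degree such that for every universal self-delimiting
machine `U` there is a constant `C` with `K U (A ↾ n) > 2 K U (n) - C` for every `n`. -/
theorem result : ∃ A : ℕ → Bool, MinimalDegree A ∧
    ∀ U : List Bool →. List Bool, IsUniversal U →
      ∃ C : ℕ, ∀ n : ℕ, 2 * K U (natString n) < K U (pre A n) + C :=
  exists_answer

end Pool.Agent.Results.MP_85df58_lc.MinimalComplex
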